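import Pool.Agent.H39.IX.Targets2

/-!
# Row CNV: conjugation by a unitary operator
-/

set_option autoImplicit false

open scoped InnerProductSpace Topology
open Filter Finset Pool.Agent.H80.G2 Pool.Agent.H39.IX

namespace Pool.Agent.H1.IX

theorem pf_CNV : T_CNV := by
  intro H _ _ _ N s hs
  obtain ⟨h1, h2⟩ := hs
  have key : ∀ x y : H →L[ℂ] H, s * (x * y) * star s = s * x * star s * (s * y * star s) := by
    intro x y
    calc s * (x * y) * star s = s * x * 1 * y * star s := by simp only [mul_one, mul_assoc]
      _ = s * x * (star s * s) * y * star s := by rw [h1]
      _ = _ := by simp only [mul_assoc]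
  let S : StarSubalgebra ℂ (H →L[ℂ] H) :=
    { carrier := {x | s * x * star s ∈ N}
      mul_mem' := by
        intro x y hx hy
        change s * (x * y) * star s ∈ N
        rw [key]
        exact mul_mem hx hy
      add_mem' := by
        intro x y hx hy
        change s * (x + y) * star s ∈ N
        rw [mul_add, add_mul]
        exact add_mem hx hy
      algebraMap_mem' := by
        intro c
        change s * algebraMap ℂ (H →L[ℂ] H) c * star s ∈ N
        rw [← Algebra.commutes, mul_assoc, h2, mul_one]
        exact N.algebraMap_mem' c
      star_mem' := by
        intro x hx
        change s * star x * star s ∈ N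
        have h3 : s * star x * star s = star (s * x * star s) := by
          rw [star_mul, star_mul, star_star, mul_assoc]
        rw [h3]
        exact star_mem hx }
  refine ⟨⟨S, ?_⟩, fun x => Iff.rfl⟩
  apply Set.Subset.antisymm
  · intro x hx
    change s * x * star s ∈ N
    refine mem_of_comm fun y hy => ?_
    have h4 : star s * y * s ∈ Set.centralizer S.carrier := by
      intro q hq
      have h5 := hy _ (show s * q * star s ∈ N from hq)
      calc q * (star s * y * s) = star s * s * q * star s * y * s := by
            rw [h1, one_mul]; simp only [mul_assoc]
        _ = star s * (s * q * star s * y) * s := by simp only [mul_assoc]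
        _ = star s * (y * (s * q * star s)) * s := by rw [h5]
        _ = star s * y * s * q * (star s * s) := by simp only [mul_assoc]
        _ = star s * y * s * q := by rw [h1, mul_one]
    have h6 := hx _ h4
    calc s * x * star s * y = s * (x * (star s * y * (s * star s))) := by
          rw [h2, mul_one]; simp only [mul_assoc]
      _ = s * (x * (star s * y * s)) * star s := by simp only [mul_assoc]
      _ = s * (star s * y * s * x) * star s := by rw [h6]
      _ = s * star s * y * (s * x * star s) := by simp only [mul_assoc]
      _ = y * (s * x * star s) := by rw [h2, one_mul]
  · exact Set.subset_centralizer_centralizer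

end Pool.Agent.H1.IX
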