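import Pool.Agent.H15.IX.TC

/-!
# Row E4: points over extensions of degree prime to `p`
-/

set_option autoImplicit false

open Finset Pool.Agent.H15.IX

namespace Pool.Agent.H1.IX

universe u

section fields

variable {Ω : Type u} [Field Ω]

theorem int_map {A B : Type u} [Field A] [Field B] [Algebra A Ω] [Algebra B Ω] (f : A →+* B)
    (hf : ∀ a, algebraMap B Ω (f a) = algebraMap A Ω a) {x : Ω} (hx : IsIntegral A x) :
    IsIntegral B x := by
  obtain ⟨P, hP, h0⟩ := hx
  refine ⟨P.map f, hP.map f, ?_⟩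
  have h1 : (algebraMap B Ω).comp f = algebraMap A Ω := RingHom.ext hf
  rw [Polynomial.eval₂_map, h1]
  exact h0

theorem int_mono {N M : Subfield Ω} (h : N ≤ M) {x : Ω} (hx : IsIntegral N x) :
    IsIntegral M x :=
  int_map (Subfield.inclusion h) (fun _ => rfl) hx

/-- the elements of `M` which are integral over `F` -/
noncomputable def rel (F : Type u) [Field F] [Algebra F Ω] (M : Subfield Ω) : Subfield Ω :=
  (algebraicClosure F Ω).toSubfield ⊓ M

theorem mem_rel {F : Type u} [Field F] [Algebra F Ω] {M : Subfield Ω} {x : Ω} :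
    x ∈ rel F M ↔ IsIntegral F x ∧ x ∈ M := by
  unfold rel
  rw [Subfield.mem_inf]
  refine and_congr_left fun _ => ?_
  exact mem_algebraicClosure_iff.trans isAlgebraic_iff_isIntegral

theorem rel_le {F : Type u} [Field F] [Algebra F Ω] (M : Subfield Ω) : rel F M ≤ M :=
  fun _ hx => (mem_rel.1 hx).2

theorem rel_rac {F : Type u} [Field F] [Algebra F Ω] (M : Subfield Ω) : Rac (rel F M) M := by
  intro x hxM hx
  rw [mem_rel]
  refine ⟨?_, hxM⟩
  have h1 : IsIntegral (algebraicClosure F Ω) x := by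
    refine int_map (A := rel F M) (B := algebraicClosure F Ω)
      { toFun := fun a => ⟨a, mem_algebraicClosure_iff.2
          (isAlgebraic_iff_isIntegral.2 (mem_rel.1 a.2).1)⟩
        map_one' := rfl
        map_mul' := fun _ _ => rfl
        map_zero' := rfl
        map_add' := fun _ _ => rfl } (fun _ => rfl) hx
  exact isIntegral_trans x h1

theorem le_rel {N M : Subfield Ω} (h : N ≤ M) : N ≤ rel N M := by
  intro x hx
  rw [mem_rel]
  exact ⟨isIntegral_algebraMap (R := N) (x := ⟨x, hx⟩), h hx⟩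

theorem vec_trans {O : ValuationSubring Ω} {N N' N'' : Subfield Ω} (h : N ≤ N')
    (h1 : Vec O N N') (h2 : Vec O N' N'') : Vec O N N'' := by
  intro m y hy F hF
  obtain ⟨z, hz, hzF⟩ := h2 m y hy F fun P hP s => h (hF P hP s)
  obtain ⟨w, hw, hwF⟩ := h1 m z hz F hF
  exact ⟨w, hw, fun P hP Q hQ => (hzF P hP Q hQ).trans (hwF P hP Q hQ)⟩

end fields

section core

variable {k Ω : Type u} [Field k] [IsAlgClosed k] [CharZero k] [Field Ω] [IsAlgClosed Ω]
  [Algebra k Ω] [Algebra (LaurentSeries k) Ω]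

theorem core (hMAX : T_MAX.{u}) (hSTR : T_STR.{u}) (hHRA : T_HRA.{u}) (hDVT : T_DVT.{u})
    (hTFR : T_TFR.{u}) (hSEC : T_SEC.{u}) (hVTR : T_VTR.{u}) (hIMM : T_IMM.{u})
    (hHLF : T_HLF.{u}) (hNZR : T_NZR.{u}) (O : ValuationSubring Ω) (E : Subfield Ω) (p : ℕ)
    (t : Ω) (hcmp : ∀ c : k, algebraMap k Ω c = algebraMap (LaurentSeries k) Ω (HahnSeries.C c))
    (hRs : Rs k O) (hKE : ∀ c : LaurentSeries k, algebraMap (LaurentSeries k) Ω c ∈ E)
    (hint : ∀ x : Ω, IsIntegral E x) (hp : p.Prime)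
    (ht : t = algebraMap (LaurentSeries k) Ω (HahnSeries.single 1 1))
    (hA : ∀ a : PowerSeries k, algebraMap (LaurentSeries k) Ω (a : LaurentSeries k) ∈ O)
    (hvt : O.valuation t < 1) (hGd : Gd O p t E) (m : ℕ) (y : Fin m → Ω) (hy : ∀ i, y i ∈ E) :
    ∃ z : Fin m → Ω, (∀ i, IsIntegral (LaurentSeries k) (z i)) ∧
      (∀ P : MvPolynomial (Fin m) (LaurentSeries k), MvPolynomial.aeval y P = 0 →
        MvPolynomial.aeval z P = 0) ∧
      ¬ p ∣ Module.finrank (LaurentSeries k)
        (IntermediateField.adjoin (LaurentSeries k) (Set.range z)) := by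
  classical
  have ht0 : t ≠ 0 := by
    rw [ht]
    intro h
    rw [map_eq_zero] at h
    exact HahnSeries.single_ne_zero one_ne_zero h
  obtain ⟨M, hEM, hGM, hmax⟩ := hMAX Ω O p t E hGd
  have hKM : ∀ c : LaurentSeries k, algebraMap (LaurentSeries k) Ω c ∈ M := fun c => hEM (hKE c)
  have hkM : ∀ c : k, algebraMap k Ω c ∈ M := fun c => by
    rw [hcmp]
    exact hKM _
  have htM : t ∈ M := by
    rw [ht]
    exact hKM _
  have hMalg : Algebra.IsAlgebraic M Ω := ⟨fun x => (int_mono hEM (hint x)).isAlgebraic⟩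
  have hHM : Hns O M := hSTR k Ω O M p t hRs hkM htM ht0 hp hGM hmax
  obtain ⟨N, hN⟩ : ∃ N : Subfield Ω, N = rel (LaurentSeries k) M := ⟨_, rfl⟩
  have hNM : N ≤ M := by
    rw [hN]
    exact rel_le M
  have hmemN : ∀ x, x ∈ N ↔ IsIntegral (LaurentSeries k) x ∧ x ∈ M := by
    intro x
    rw [hN]
    exact mem_rel
  have hKN : ∀ c : LaurentSeries k, algebraMap (LaurentSeries k) Ω c ∈ N := fun c =>
    (hmemN _).2 ⟨isIntegral_algebraMap, hKM c⟩
  have hkN : ∀ c : k, algebraMap k Ω c ∈ N := fun c => by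
    rw [hcmp]
    exact hKN _
  have htN : t ∈ N := by
    rw [ht]
    exact hKN _
  have hNrac : Rac N M := by
    rw [hN]
    exact rel_rac M
  have hHN : Hns O N := hHRA Ω O N M hNM hNrac hHM
  have hGN : Gd O p t N := fun f hf => hGM f (hNM hf)
  obtain ⟨hZ1, hZ2⟩ := hNZR k Ω O p N hp hA (by rw [← ht]; exact hvt) hKN
    (fun x hx => ((hmemN x).1 hx).1) (by rw [← ht]; exact hGN)
  rw [← ht] at hZ1
  have hD : ∀ m : ℕ, ¬ p ∣ m → ∃ x ∈ N, O.valuation x ^ m = O.valuation t := by
    intro m hm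
    obtain ⟨x, hx, hxm⟩ := hDVT k Ω O M p t hRs hkM htM ht0 hp hGM hmax hHM m hm
    have hm0 : 0 < m := by
      rcases Nat.eq_zero_or_pos m with h | h
      · exact absurd (h ▸ dvd_zero p) hm
      · exact h
    refine ⟨x, (hmemN x).2 ⟨IsIntegral.of_pow hm0 ?_, hx⟩, ?_⟩
    · rw [hxm, ht]
      exact isIntegral_algebraMap
    · rw [← map_pow, hxm]
  have hpur := hTFR k Ω O N M hRs hkN hNM hNrac hHM
  obtain ⟨S, hS1, hS2, hS3, hS4⟩ := hSEC k Ω O N M hRs hkN hNM hHN hHM
  obtain ⟨F, hF⟩ : ∃ F : Subfield Ω, F = Subfield.closure ((N : Set Ω) ∪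
    {x | ∃ s ∈ S, x = (s : Ω)}) := ⟨_, rfl⟩
  have hVF : Vec O N F := by
    rw [hF]
    exact hVTR k Ω O N M p t S hp htN ht0 hvt hNM hS1 hS2 hS4 hZ1 hD hpur
  have hNF : N ≤ F := by
    rw [hF]
    exact fun x hx => Subfield.subset_closure (Or.inl hx)
  have hFM : F ≤ M := by
    rw [hF, Subfield.closure_le]
    rintro x (hx | ⟨s, hs, rfl⟩)
    · exact hNM hx
    · exact hS1 s hs
  have himm : ∀ x ∈ M, x ≠ 0 → ∃ y ∈ F, O.valuation (x - y) < O.valuation x := by
    intro x hx hx0
    obtain ⟨s, hs, hsx⟩ := hS3 x hx hx0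
    have hs0 : (s : Ω) ≠ 0 := s.ne_zero
    have h1 : O.valuation (x / s) = 1 := by
      rw [map_div₀, hsx, div_self]
      exact (O.valuation.ne_zero_iff).2 hx0
    obtain ⟨c, hc⟩ := hRs.2 (x / s) ((O.valuation_le_one_iff _).1 h1.le)
    refine ⟨algebraMap k Ω c * s, ?_, ?_⟩
    · refine F.mul_mem (hNF (hkN c)) ?_
      rw [hF]
      exact Subfield.subset_closure (Or.inr ⟨s, hs, rfl⟩)
    · have h2 : x - algebraMap k Ω c * s = (x / s - algebraMap k Ω c) * s := by
        field_simp
      rw [h2, map_mul, ← hsx]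
      have h3 : O.valuation (s : Ω) ≠ 0 := (O.valuation.ne_zero_iff).2 hs0
      calc O.valuation (x / s - algebraMap k Ω c) * O.valuation (s : Ω) <
            1 * O.valuation (s : Ω) := by
            exact mul_lt_mul_of_pos_right hc (zero_lt_iff.2 h3)
        _ = _ := one_mul _
  have hchain : ∀ (n : ℕ) (w : Fin n → Ω), (∀ i, w i ∈ M) → ∃ N' : Subfield Ω, F ≤ N' ∧
      N' ≤ M ∧ Rac N' M ∧ Vec O N N' ∧ ∀ i, w i ∈ N' := by
    intro n
    induction n with
    | zero =>
      intro w _
      refine ⟨rel F M, le_rel hFM, rel_le M, rel_rac M, ?_, fun i => i.elim0⟩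
      exact hHLF k Ω O N F (rel F M) hRs hkN hNF (le_rel hFM) hHN
        (hHRA Ω O _ M (rel_le M) (rel_rac M) hHM) (fun x hx => (mem_rel.1 hx).1)
        (fun x hx hx0 => himm x (rel_le M hx) hx0) hVF
    | succ n ih =>
      intro w hw
      obtain ⟨N', hFN', hN'M, hrac, hV, hwN⟩ := ih (fun i => w i.succ) fun i => hw _
      have hkN' : ∀ c : k, algebraMap k Ω c ∈ N' := fun c => hFN' (hNF (hkN c))
      have hHN' : Hns O N' := hHRA Ω O N' M hN'M hrac hHM
      obtain ⟨F', hF'⟩ : ∃ F' : Subfield Ω, F' = Subfield.closure ((N' : Set Ω) ∪ {w 0}) :=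
        ⟨_, rfl⟩
      have hV' : Vec O N' F' := by
        rw [hF']
        exact hIMM k Ω O N' M (w 0) hRs.1 hkN' hN'M hrac hHN' (fun x hx hx0 => by
          obtain ⟨y, hy, h⟩ := himm x hx hx0
          exact ⟨y, hFN' hy, h⟩) (hw 0)
      have hN'F' : N' ≤ F' := by
        rw [hF']
        exact fun x hx => Subfield.subset_closure (Or.inl hx)
      have hwF' : w 0 ∈ F' := by
        rw [hF']
        exact Subfield.subset_closure (Or.inr rfl)
      have hF'M : F' ≤ M := by
        rw [hF', Subfield.closure_le]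
        rintro x (hx | rfl)
        · exact hN'M hx
        · exact hw 0
      refine ⟨rel F' M, (hFN'.trans hN'F').trans (le_rel hF'M), rel_le M, rel_rac M, ?_, ?_⟩
      · refine vec_trans (hNF.trans hFN') hV ?_
        exact hHLF k Ω O N' F' (rel F' M) hRs hkN' hN'F' (le_rel hF'M) hHN'
          (hHRA Ω O _ M (rel_le M) (rel_rac M) hHM) (fun x hx => (mem_rel.1 hx).1)
          (fun x hx hx0 => by
            obtain ⟨y, hy, h⟩ := himm x (rel_le M hx) hx0
            exact ⟨y, hN'F' (hFN' hy), h⟩) hV'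
      · intro i
        refine Fin.cases ?_ (fun j => ?_) i
        · exact le_rel hF'M hwF'
        · exact le_rel hF'M (hN'F' (hwN j))
  obtain ⟨N', -, -, -, hV, hyN⟩ := hchain m y fun i => hEM (hy i)
  obtain ⟨I, hI⟩ : ∃ I : Ideal (MvPolynomial (Fin m) (LaurentSeries k)),
    I = RingHom.ker (MvPolynomial.aeval y : MvPolynomial (Fin m) (LaurentSeries k) →ₐ[_] Ω) :=
    ⟨_, rfl⟩
  obtain ⟨s, hs⟩ : I.FG := (isNoetherianRing_iff_ideal_fg _).1 inferInstance I
  obtain ⟨z, hz, hzF⟩ := hV m y hyN (insert 0 (s.image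
    (MvPolynomial.map (algebraMap (LaurentSeries k) Ω)))) (by
      intro P hP u
      rw [Finset.mem_insert] at hP
      rcases hP with rfl | hP
      · rw [MvPolynomial.coeff_zero]
        exact N.zero_mem
      · rw [Finset.mem_image] at hP
        obtain ⟨Q, -, rfl⟩ := hP
        rw [MvPolynomial.coeff_map]
        exact hKN _)
  have hkey : ∀ P : MvPolynomial (Fin m) (LaurentSeries k), MvPolynomial.aeval y P = 0 →
      MvPolynomial.aeval z P = 0 := by
    have h1 : I ≤ RingHom.ker (MvPolynomial.aeval z :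
        MvPolynomial (Fin m) (LaurentSeries k) →ₐ[_] Ω) := by
      rw [← hs, Ideal.span_le]
      intro P hP
      have hPI : P ∈ I := by
        rw [← hs]
        exact Ideal.subset_span hP
      rw [hI, RingHom.mem_ker] at hPI
      have h2 := (hzF (MvPolynomial.map (algebraMap (LaurentSeries k) Ω) P)
        (Finset.mem_insert_of_mem (Finset.mem_image_of_mem _ hP)) 0
        (Finset.mem_insert_self _ _)).1 (by
          rw [MvPolynomial.eval_map, ← MvPolynomial.aeval_def, hPI, map_zero]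
          exact zero_le')
      rw [map_zero, map_zero, le_zero_iff, Valuation.zero_iff, MvPolynomial.eval_map,
        ← MvPolynomial.aeval_def] at h2
      exact h2
    intro P hP
    have h2 : P ∈ I := by
      rw [hI, RingHom.mem_ker]
      exact hP
    exact h1 h2
  have hzint : ∀ i, IsIntegral (LaurentSeries k) (z i) := fun i => ((hmemN _).1 (hz i)).1
  refine ⟨z, hzint, hkey, ?_⟩
  have hfin : FiniteDimensional (LaurentSeries k)
      (IntermediateField.adjoin (LaurentSeries k) (Set.range z)) := by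
    apply IntermediateField.finiteDimensional_adjoin
    rintro _ ⟨i, rfl⟩
    exact hzint i
  apply hZ2
  have h1 : IntermediateField.adjoin (LaurentSeries k) (Set.range z) ≤
      Subfield.toIntermediateField N hKN := by
    rw [IntermediateField.adjoin_le_iff]
    rintro _ ⟨i, rfl⟩
    exact hz i
  exact fun x hx => h1 hx

end core

/-- the maximal ideal of a valuation ring is contained in the smaller valuation rings -/
theorem mem_of_lt {E : Type u} [Field E] {O O' : ValuationSubring E} (h : O' ≤ O) {x : E}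
    (hx : O.valuation x < 1) : x ∈ O' := by
  rcases eq_or_ne x 0 with rfl | hx0
  · exact O'.zero_mem
  · rcases O'.mem_or_inv_mem x with h1 | h1
    · exact h1
    · exfalso
      have h2 := (O.valuation_le_one_iff _).2 (h h1)
      rw [map_inv₀] at h2
      have h3 : O.valuation x ≠ 0 := (O.valuation.ne_zero_iff).2 hx0
      have h4 : O.valuation x * (O.valuation x)⁻¹ ≤ O.valuation x * 1 :=
        mul_le_mul_right h2 _
      rw [mul_inv_cancel₀ h3, mul_one] at h4
      exact absurd hx (not_lt.2 h4)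

theorem lt_of_inv_notMem {E : Type u} [Field E] {O : ValuationSubring E} {x : E}
    (hx : x⁻¹ ∉ O) : O.valuation x < 1 := by
  have h1 : x ∈ O := (O.mem_or_inv_mem x).resolve_right hx
  refine lt_of_le_of_ne ((O.valuation_le_one_iff _).2 h1) fun h2 => hx ?_
  rw [← O.valuation_le_one_iff, map_inv₀, h2, inv_one]

theorem pf_E4 (hMIN : T_MIN.{u}) (hEXT : T_EXT.{u}) (hMAX : T_MAX.{u}) (hSTR : T_STR.{u})
    (hHRA : T_HRA.{u}) (hDVT : T_DVT.{u}) (hTFR : T_TFR.{u}) (hSEC : T_SEC.{u})
    (hVTR : T_VTR.{u}) (hIMM : T_IMM.{u}) (hHLF : T_HLF.{u}) (hNZR : T_NZR.{u}) :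
    T_E4.{u} := by
  intro k E _ _ _ _ _ p O hp hA ht hGd m y
  obtain ⟨t, htE⟩ : ∃ t : E, t = algebraMap (LaurentSeries k) E (HahnSeries.single 1 1) :=
    ⟨_, rfl⟩
  rw [← htE] at ht hGd
  let ik : Algebra k E := ((algebraMap (LaurentSeries k) E).comp
    (HahnSeries.C : k →+* LaurentSeries k)).toAlgebra
  have hik : ∀ c : k, algebraMap k E c = algebraMap (LaurentSeries k) E (HahnSeries.C c) :=
    fun _ => rfl
  have hCO : ∀ c : k, algebraMap k E c ∈ O := by
    intro c
    rw [hik]
    have h1 := hA (PowerSeries.C c)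
    rw [HahnSeries.ofPowerSeries_C] at h1
    exact h1
  obtain ⟨O₁, hO₁, hRs₁⟩ := hMIN k E O hCO
  have ht1 : t⁻¹ ∉ O₁ := fun h => ht (hO₁ h)
  have hvt : O.valuation t < 1 := lt_of_inv_notMem ht
  have hA₁ : ∀ a : PowerSeries k, algebraMap (LaurentSeries k) E (a : LaurentSeries k) ∈ O₁ := by
    intro a
    rw [PowerSeries.eq_X_mul_shift_add_const a, map_add, map_add, map_mul, map_mul,
      HahnSeries.ofPowerSeries_X, HahnSeries.ofPowerSeries_C, ← htE]
    refine O₁.add_mem _ _ (mem_of_lt hO₁ ?_) (hRs₁.1 _)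
    rw [map_mul]
    have h2 := (O.valuation_le_one_iff _).2 (hA (PowerSeries.mk fun p =>
      PowerSeries.coeff (p + 1) a))
    calc O.valuation t * _ ≤ O.valuation t * 1 := mul_le_mul_right h2 _
      _ = O.valuation t := mul_one _
      _ < 1 := hvt
  obtain ⟨O₂, hO₂, hRs₂⟩ := hEXT k E (AlgebraicClosure E) O₁ hRs₁
  have hmem : ∀ x : E, algebraMap E (AlgebraicClosure E) x ∈ O₂ ↔ x ∈ O₁ := by
    intro x
    rw [← hO₂]
    exact Iff.rfl
  obtain ⟨E', hE'⟩ : ∃ E' : Subfield (AlgebraicClosure E),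
    E' = (algebraMap E (AlgebraicClosure E)).fieldRange := ⟨_, rfl⟩
  have hmE : ∀ x : E, algebraMap E (AlgebraicClosure E) x ∈ E' := by
    intro x
    rw [hE']
    exact ⟨x, rfl⟩
  obtain ⟨z, hz1, hz2, hz3⟩ := core (k := k) (Ω := AlgebraicClosure E) hMAX hSTR hHRA hDVT hTFR hSEC hVTR hIMM
    hHLF hNZR O₂ E' p (algebraMap E (AlgebraicClosure E) t) (fun c => by
      rw [IsScalarTower.algebraMap_apply k E (AlgebraicClosure E),
        IsScalarTower.algebraMap_apply (LaurentSeries k) E (AlgebraicClosure E), hik]) hRs₂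
    (fun c => by
      rw [IsScalarTower.algebraMap_apply (LaurentSeries k) E (AlgebraicClosure E)]
      exact hmE _) (fun x => by
      have h1 : IsIntegral E x := Algebra.IsIntegral.isIntegral x
      exact int_map ({ toFun := fun a => ⟨_, hmE a⟩
                       map_one' := Subtype.ext (map_one _)
                       map_mul' := fun _ _ => Subtype.ext (map_mul _ _ _)
                       map_zero' := Subtype.ext (map_zero _)
                       map_add' := fun _ _ => Subtype.ext (map_add _ _ _) } : E →+* E')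
        (fun _ => rfl) h1) hp (by
      rw [htE, ← IsScalarTower.algebraMap_apply]) (fun a => by
      rw [IsScalarTower.algebraMap_apply (LaurentSeries k) E (AlgebraicClosure E), hmem]
      exact hA₁ a) (by
      apply lt_of_inv_notMem
      rw [← map_inv₀, hmem]
      exact ht1) (by
      intro f hf h1
      rw [hE'] at hf
      obtain ⟨e, rfl⟩ := hf
      have he0 : e ≠ 0 := by
        rintro rfl
        rw [map_zero, zero_pow hp.ne_zero, mul_zero, map_zero] at h1
        exact zero_ne_one h1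
      refine hGd e he0 ⟨?_, ?_⟩
      · apply hO₁
        rw [← hmem, ← O₂.valuation_le_one_iff, map_mul, map_pow]
        exact h1.le
      · apply hO₁
        rw [← hmem, ← O₂.valuation_le_one_iff, map_inv₀, map_mul, map_pow, map_inv₀, h1,
          inv_one]) m (fun i => algebraMap E (AlgebraicClosure E) (y i)) fun i => hmE _
  have hfin : FiniteDimensional (LaurentSeries k)
      (IntermediateField.adjoin (LaurentSeries k) (Set.range z)) := by
    apply IntermediateField.finiteDimensional_adjoin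
    rintro _ ⟨i, rfl⟩
    exact hz1 i
  refine ⟨IntermediateField.adjoin (LaurentSeries k) (Set.range z), inferInstance, inferInstance,
    hfin, hz3, fun i => ⟨z i, IntermediateField.subset_adjoin _ _ ⟨i, rfl⟩⟩, fun P hP => ?_⟩
  have h1 : MvPolynomial.aeval (fun i => algebraMap E (AlgebraicClosure E) (y i)) P = 0 := by
    have h2 : MvPolynomial.aeval (fun i => algebraMap E (AlgebraicClosure E) (y i)) P =
        algebraMap E (AlgebraicClosure E) (MvPolynomial.aeval y P) :=
      MvPolynomial.aeval_algebraMap_apply _ _ _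
    rw [h2, hP, map_zero]
  have h2 := hz2 P h1
  apply (algebraMap (IntermediateField.adjoin (LaurentSeries k) (Set.range z))
    (AlgebraicClosure E)).injective
  rw [map_zero, ← h2, ← MvPolynomial.aeval_algebraMap_apply]
  rfl

end Pool.Agent.H1.IX
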