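import Pool.Agent.H15.IX.TG
import Pool.Agent.H86.IX.CYC

/-!
# Row RKA: R-equivalence over algebraic extensions of the field of Laurent series which contain all
roots of `t` of order prime to `p`
-/

set_option autoImplicit false

open Finset Pool.Agent.H15.IX
open MvPolynomial Pool.Agent.H13.RE Pool.Agent.H17.IQ

namespace Pool.Agent.H1.IX

universe u

/-- roots of unity come from an algebraically closed subfield -/
theorem root_bot {k E : Type u} [Field k] [IsAlgClosed k] [CharZero k] [Field E] (φ : k →+* E)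
    (N : ℕ) (hN : N ≠ 0) (ζ : AlgebraicClosure E) (hζ : ζ ^ N = 1) :
    ζ ∈ (⊥ : IntermediateField E (AlgebraicClosure E)) := by
  have : NeZero N := ⟨hN⟩
  have : NeZero (N : k) := ⟨Nat.cast_ne_zero.2 hN⟩
  obtain ⟨ω, hω⟩ := HasEnoughRootsOfUnity.exists_primitiveRoot k N
  have h1 : IsPrimitiveRoot (algebraMap E (AlgebraicClosure E) (φ ω)) N :=
    (hω.map_of_injective φ.injective).map_of_injective
      (algebraMap E (AlgebraicClosure E)).injective
  obtain ⟨j, -, hj⟩ := h1.eq_pow_of_pow_eq_one hζ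
  rw [← hj]
  exact pow_mem (IntermediateField.algebraMap_mem _ _) j

theorem pf_RKA (hCOB : T_COB.{u}) : T_RKA.{u} := by
  intro k E _ _ _ _ _ _ n s p d F x y hp hroot hd hF hsum hx hy hxF hyF
  obtain ⟨u, a, m₁, m', hm₁, hm', hu, ⟨c, hc⟩, hRE⟩ :=
    hCOB k E n s p d F x y hp hd hF hsum hx hy hxF hyF
  have ht0 : algebraMap E (AlgebraicClosure E)
      (algebraMap (LaurentSeries k) E (HahnSeries.single 1 1)) ≠ 0 := by
    intro h
    rw [map_eq_zero, map_eq_zero] at h
    exact HahnSeries.single_ne_zero one_ne_zero h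
  have hm₁0 : m₁ ≠ 0 := fun h => hm₁ (h ▸ dvd_zero p)
  have hm'0 : m' ≠ 0 := fun h => hm' (h ▸ dvd_zero p)
  have hu0 : u ≠ 0 := by
    intro h
    rw [h, zero_pow (Nat.mul_ne_zero (Nat.mul_ne_zero (pow_ne_zero _ hp.ne_zero) hm₁0) hm'0)] at hu
    exact ht0 hu.symm
  obtain ⟨z, hz⟩ := hroot (m₁ * m') (fun h => by
    rcases hp.dvd_mul.1 h with h | h
    · exact hm₁ h
    · exact hm' h)
  have hz0 : algebraMap E (AlgebraicClosure E) z ≠ 0 := by
    intro h
    apply ht0
    rw [← hz, map_pow, h, zero_pow (Nat.mul_ne_zero hm₁0 hm'0)]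
  have h1 : (u ^ (p ^ a) / algebraMap E (AlgebraicClosure E) z) ^ (m₁ * m') = 1 := by
    rw [div_pow, ← pow_mul, ← mul_assoc, hu, ← hz, map_pow, div_self]
    exact pow_ne_zero _ hz0
  have h2 := root_bot (E := E) ((algebraMap (LaurentSeries k) E).comp HahnSeries.C) (m₁ * m')
    (Nat.mul_ne_zero hm₁0 hm'0) _ h1
  have h3 : u ^ (p ^ a) ∈ (⊥ : IntermediateField E (AlgebraicClosure E)) := by
    have h4 := mul_mem h2 (IntermediateField.algebraMap_mem
      (⊥ : IntermediateField E (AlgebraicClosure E)) z)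
    rwa [div_mul_cancel₀ _ hz0] at h4
  have h5 : u ^ m' ∈ (⊥ : IntermediateField E (AlgebraicClosure E)) := by
    rw [hc]
    exact IntermediateField.algebraMap_mem _ _
  have hcop : IsCoprime ((p ^ a : ℕ) : ℤ) (m' : ℤ) := by
    rw [Nat.isCoprime_iff_coprime]
    exact Nat.Coprime.pow_left a ((Nat.Prime.coprime_iff_not_dvd hp).2 hm')
  obtain ⟨i, j, hij⟩ := hcop
  have h6 : u ∈ (⊥ : IntermediateField E (AlgebraicClosure E)) := by
    have h7 : u = (u ^ (p ^ a)) ^ i * (u ^ m') ^ j := by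
      rw [← zpow_natCast, ← zpow_natCast, ← zpow_mul, ← zpow_mul, ← zpow_add₀ hu0]
      have h8 : ((p ^ a : ℕ) : ℤ) * i + (m' : ℤ) * j = 1 := by
        rw [← hij]
        ring
      rw [h8, zpow_one]
    rw [h7]
    exact mul_mem (zpow_mem h3 i) (zpow_mem h5 j)
  have h7 : IntermediateField.adjoin E {u} = ⊥ := by
    rw [eq_bot_iff, IntermediateField.adjoin_le_iff]
    rintro _ rfl
    exact h6
  obtain ⟨ψ, hψ⟩ : ∃ ψ : IntermediateField.adjoin E {u} →+* E, ∀ b : E,
      ψ (algebraMap E (IntermediateField.adjoin E {u}) b) = b := by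
    let e := (IntermediateField.equivOfEq h7).trans
      (IntermediateField.botEquiv E (AlgebraicClosure E))
    refine ⟨(e : IntermediateField.adjoin E {u} →+* E), fun b => ?_⟩
    exact e.commutes b
  have h8 := Pool.Agent.H86.IX.CYC.re_map ψ _ hRE
  have h9 : ψ.comp (algebraMap E (IntermediateField.adjoin E {u})) = RingHom.id E :=
    RingHom.ext hψ
  simp only [MvPolynomial.map_map, h9, MvPolynomial.map_id, hψ] at h8
  exact h8

end Pool.Agent.H1.IX
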