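import Pool.Agent.H39.IX.Targets2

/-!
# Row RSV: the element `(1 + a²)⁻¹`
-/

set_option autoImplicit false

open scoped InnerProductSpace Topology
open Filter Finset Pool.Agent.H80.G2 Pool.Agent.H39.IX

namespace Pool.Agent.H1.IX

theorem pf_RSV : T_RSV := by
  intro H _ _ _ a ha
  have hsa : IsSelfAdjoint a := ha
  have hpos : ∀ t : ℝ, 0 < 1 + t * t := fun t => by nlinarith [mul_self_nonneg t]
  have hc1 : Continuous fun t : ℝ => (1 + t * t)⁻¹ :=
    (continuous_const.add (continuous_id.mul continuous_id)).inv₀ fun t => (hpos t).ne'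
  have hc2 : Continuous fun t : ℝ => 1 + t * t := continuous_const.add (continuous_id.mul continuous_id)
  have h1a : cfc (fun t : ℝ => 1 + t * t) a = 1 + a * a := by
    rw [cfc_add (R := ℝ) a (fun _ => 1) (fun t => t * t) (by fun_prop) (by fun_prop),
      cfc_mul (R := ℝ) (fun t => t) (fun t => t) a (by fun_prop) (by fun_prop), cfc_id' ℝ a,
      cfc_const_one ℝ a]
  have hra : cfc (fun t : ℝ => (1 + t * t)⁻¹) a * a = cfc (fun t : ℝ => (1 + t * t)⁻¹ * t) a := by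
    rw [cfc_mul (R := ℝ) (fun t => (1 + t * t)⁻¹) (fun t => t) a hc1.continuousOn (by fun_prop),
      cfc_id' ℝ a]
  have hcom : ∀ y : H →L[ℂ] H, y * a = a * y →
      y * cfc (fun t : ℝ => (1 + t * t)⁻¹) a = cfc (fun t : ℝ => (1 + t * t)⁻¹) a * y := by
    intro y hy
    have h3 : Commute a y := hy.symm
    exact (Commute.cfc_real h3 (fun t : ℝ => (1 + t * t)⁻¹)).symm
  refine ⟨cfc (fun t : ℝ => (1 + t * t)⁻¹) a, ?_, ?_, ?_, ?_, ?_, ?_, hcom, ?_⟩
  · exact cfc_predicate (R := ℝ) (fun t => (1 + t * t)⁻¹) a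
  · rw [← h1a, ← cfc_mul (R := ℝ) (fun t => (1 + t * t)⁻¹) (fun t => 1 + t * t) a
      hc1.continuousOn hc2.continuousOn]
    have h3 : (fun t : ℝ => (1 + t * t)⁻¹ * (1 + t * t)) = fun _ => 1 := by
      funext t
      exact inv_mul_cancel₀ (hpos t).ne'
    rw [h3, cfc_const_one ℝ a]
  · rw [← h1a, ← cfc_mul (R := ℝ) (fun t => 1 + t * t) (fun t => (1 + t * t)⁻¹) a
      hc2.continuousOn hc1.continuousOn]
    have h3 : (fun t : ℝ => (1 + t * t) * (1 + t * t)⁻¹) = fun _ => 1 := by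
      funext t
      exact mul_inv_cancel₀ (hpos t).ne'
    rw [h3, cfc_const_one ℝ a]
  · exact hcom a rfl
  · refine norm_cfc_le (by norm_num) fun t _ => ?_
    rw [Real.norm_eq_abs, abs_of_pos (inv_pos.2 (hpos t))]
    exact inv_le_one_of_one_le₀ (by nlinarith [mul_self_nonneg t])
  · rw [hra]
    refine norm_cfc_le (by norm_num) fun t _ => ?_
    rw [Real.norm_eq_abs, abs_mul, abs_of_pos (inv_pos.2 (hpos t)), inv_mul_le_iff₀ (hpos t)]
    rcases abs_cases t with ⟨h, _⟩ | ⟨h, _⟩ <;> rw [h] <;> nlinarith [sq_nonneg (t - 1), sq_nonneg (t + 1)]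
  · intro S hS haS
    haveI : IsClosed (S : Set (H →L[ℂ] H)) := hS
    exact cfc_mem (𝕜 := ℝ) (𝕜' := ℂ) (s := S) (fun t : ℝ => (1 + t * t)⁻¹) haS

end Pool.Agent.H1.IX
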